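import Mathlib
import Pool.Agent.Run7.h129.LG.Up

set_option autoImplicit false

/-!
# Repunits and first digits in all bases at once: large gaps between the good lengths

For an integer `a ≥ 2`, a real `β > 0` and a prime `p` let `W a β p` be the `p`-rough part (the
product, with multiplicity, of the prime factors larger than `p`) of the largest integer below
`β * a ^ p`, the integer formed by the first `p` digits of `β` in base `a` (for `0 < β ≤ 1`,
non-terminating expansion).  For `a = 10` and `β = 1 / 9 = 0.111...` this is the repunit `R_p` itself,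
for every prime `p ≠ 3`; for any base and `β = 1 / (a - 1)` it is the repunit `(a ^ p - 1) / (a - 1)`
in base `a`, for every prime `p` that does not divide `a - 1`.  Call a prime `p` a good length for `β`
in base `a` if `W a β p` is prime.

We prove for almost every `β > 0`, in all bases `a ≥ 2` at once:

* the set of the limit points of `log (q / p)`, where `p < q` are consecutive good lengths, has in
  `[0, T]` Lebesgue measure at least `c T` for all `T ≥ T0`, where `c > 0` and `T0` depend on `a` only;
* for all large `n` the longest logarithmic gap `log (q / p)` between consecutive good lengths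
  `p < q ≤ n` lies between two constant multiples (depending on `a` only) of `log log n`.

In the Poisson model behind the conjecture on repunit primes all numbers `≥ 0` are limit points and
the longest gap is asymptotic to a constant times `log log n`. The upper bound of the second
statement follows from the starting library `Pool.Agent.N176.GP`; the rest is new. The proof (see
`Pool/Agent/Run7/h129/LG`) uses an upper bound sieve inside almost all cells of amplitudes with the
same first `z ≤ (1 - ε) q` digits, for the length `q`, with a constant independent of `ε`.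
-/

namespace Pool.Agent.Results.MP_adea1b_nt.LargeRatiosInEveryBase

open Filter Topology MeasureTheory

/-- The product, with multiplicity, of the prime factors of `m` that are larger than `p`. -/
def roughPart (p m : ℕ) : ℕ := (m.primeFactorsList.filter (fun r => p < r)).prod

/-- The `p`-rough part of the largest integer below `β * a ^ p`. -/
noncomputable def W (a : ℕ) (β : ℝ) (p : ℕ) : ℕ := roughPart p (⌈β * (a : ℝ) ^ p⌉₊ - 1)

/-- The good lengths of `β` in base `a` are the primes `p` for which `W a β p` is prime. -/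
def IsGood (a : ℕ) (β : ℝ) (p : ℕ) : Prop := p.Prime ∧ (W a β p).Prime

/-- `p < q` are consecutive good lengths of `β` in base `a`. -/
def Consecutive (a : ℕ) (β : ℝ) (p q : ℕ) : Prop :=
  IsGood a β p ∧ IsGood a β q ∧ p < q ∧ ∀ r, p < r → r < q → ¬ IsGood a β r

/-- The limit points of `log (q / p)`, where `p < q` are consecutive good lengths. -/
def limitPoints (a : ℕ) (β : ℝ) : Set ℝ :=
  {t | ∀ ε : ℝ, 0 < ε → ∃ᶠ p : ℕ in atTop, ∃ q : ℕ, Consecutive a β p q ∧
    |Real.log ((q : ℝ) / p) - t| < ε}

/-- The repunits are the case `β = 1 / (a - 1)`; the limit points of the logarithms of the ratios of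
consecutive good lengths have positive lower density, in all bases at once; the longest gap has the
order of magnitude `log log n`, in all bases at once. -/
theorem result :
    (∀ p : ℕ, p.Prime → p ≠ 3 → W 10 (1 / 9) p = ∑ i ∈ Finset.range p, 10 ^ i) ∧
    (∀ a : ℕ, 2 ≤ a → ∀ p : ℕ, p.Prime → ¬ p ∣ a - 1 →
      W a (1 / ((a : ℝ) - 1)) p = ∑ i ∈ Finset.range p, a ^ i) ∧
    (∃ c T0 : ℕ → ℝ, (∀ a, 0 < c a) ∧ ∀ᵐ β : ℝ, 0 < β → ∀ a : ℕ, 2 ≤ a → ∀ T : ℝ, T0 a ≤ T →
      ENNReal.ofReal (c a * T) ≤ volume (limitPoints a β ∩ Set.Icc 0 T)) ∧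
    (∃ c C : ℕ → ℝ, (∀ a, 0 < c a) ∧ ∀ᵐ β : ℝ, 0 < β → ∀ a : ℕ, 2 ≤ a → ∀ᶠ n : ℕ in atTop,
      (∃ p q : ℕ, Consecutive a β p q ∧ q ≤ n ∧
        c a * Real.log (Real.log n) ≤ Real.log ((q : ℝ) / p)) ∧
      (∀ p q : ℕ, Consecutive a β p q → q ≤ n →
        Real.log ((q : ℝ) / p) ≤ C a * Real.log (Real.log n))) := by
  have hE : ∀ a β p, Pool.Agent.Run7.h129.LG.Ex a β p ↔ IsGood a β p := by
    intro a β p
    unfold Pool.Agent.Run7.h129.LG.Ex IsGood W Pool.Agent.N176.GP.NB
    rfl
  have hC : ∀ a β p q, Pool.Agent.Run7.h129.Mer.Consec (Pool.Agent.Run7.h129.LG.Ex a β) p q ↔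
      Consecutive a β p q := by
    intro a β p q
    unfold Pool.Agent.Run7.h129.Mer.Consec Consecutive
    simp only [hE]
  have hL : ∀ a β, Pool.Agent.Run7.h129.Mer.LimSet (Pool.Agent.Run7.h129.LG.Ex a β) =
      limitPoints a β := by
    intro a β
    unfold Pool.Agent.Run7.h129.Mer.LimSet limitPoints
    simp only [hC]
  have hspec : ∀ a : ℕ, 2 ≤ a → ∀ p : ℕ, p.Prime → ¬ p ∣ a - 1 →
      W a (1 / ((a : ℝ) - 1)) p = ∑ i ∈ Finset.range p, a ^ i := by
    intro a ha p hp hpa
    exact Pool.Agent.W66S.repunit_special ha hp hpa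
  refine ⟨fun p hp h3 => ?_, hspec, ?_, ?_⟩
  · have hp9 : ¬ p ∣ 10 - 1 := by
      intro h
      have : p ∣ 3 ^ 2 := by simpa using h
      exact h3 ((Nat.prime_dvd_prime_iff_eq hp Nat.prime_three).1 (hp.dvd_of_dvd_pow this))
    have h := hspec 10 (by norm_num) p hp hp9
    have e : (1 / (((10 : ℕ) : ℝ) - 1)) = 1 / 9 := by norm_num
    rw [e] at h
    exact h
  · have h := fun a (ha : 2 ≤ a) => Pool.Agent.Run7.h129.LG.density (b := a) ha
    choose c T0 hc hT0 h1 using h
    simp only [hL] at h1
    refine ⟨fun a => if h : 2 ≤ a then c a h else 1, fun a => if h : 2 ≤ a then T0 a h else 1,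
      fun a => ?_, ?_⟩
    · dsimp only
      split_ifs with h
      · exact hc a h
      · norm_num
    · have h2 : ∀ᵐ β : ℝ, ∀ a : ℕ, ∀ ha : 2 ≤ a, 0 < β → ∀ T : ℝ, T0 a ha ≤ T →
          ENNReal.ofReal (c a ha * T) ≤ volume (limitPoints a β ∩ Set.Icc 0 T) := by
        rw [ae_all_iff]
        intro a
        rw [ae_all_iff]
        intro ha
        exact h1 a ha
      filter_upwards [h2] with β hβ hβ0 a ha T hT
      rw [dif_pos ha] at hT ⊢
      exact hβ a ha hβ0 T hT
  · have h := fun a (ha : 2 ≤ a) => Pool.Agent.Run7.h129.LG.longest (b := a) ha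
    have h' := fun a (ha : 2 ≤ a) => Pool.Agent.Run7.h129.LG.longest_le (b := a) ha
    choose c hc h1 using h
    choose C hC0 h2 using h'
    simp only [hC] at h1 h2
    refine ⟨fun a => if h : 2 ≤ a then c a h else 1, fun a => if h : 2 ≤ a then C a h else 1,
      fun a => ?_, ?_⟩
    · dsimp only
      split_ifs with h
      · exact hc a h
      · norm_num
    · have h3 : ∀ᵐ β : ℝ, ∀ a : ℕ, ∀ ha : 2 ≤ a, 0 < β → ∀ᶠ n : ℕ in atTop,
          ∃ p q : ℕ, Consecutive a β p q ∧ q ≤ n ∧
            c a ha * Real.log (Real.log n) ≤ Real.log ((q : ℝ) / p) := by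
        rw [ae_all_iff]
        intro a
        rw [ae_all_iff]
        intro ha
        exact h1 a ha
      have h4 : ∀ᵐ β : ℝ, ∀ a : ℕ, ∀ ha : 2 ≤ a, 0 < β → ∀ᶠ n : ℕ in atTop,
          ∀ p q : ℕ, Consecutive a β p q → q ≤ n →
            Real.log ((q : ℝ) / p) ≤ C a ha * Real.log (Real.log n) := by
        rw [ae_all_iff]
        intro a
        rw [ae_all_iff]
        intro ha
        exact h2 a ha
      filter_upwards [h3, h4] with β hβ1 hβ2 hβ0 a ha
      rw [dif_pos ha, dif_pos ha]
      filter_upwards [hβ1 a ha hβ0, hβ2 a ha hβ0] with n hn1 hn2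
      exact ⟨hn1, hn2⟩

end Pool.Agent.Results.MP_adea1b_nt.LargeRatiosInEveryBase
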