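import Mathlib
import Pool.Agent.Run7.h854.PO.All

set_option autoImplicit false

/-!
# Repunits and first digits in base `a`: the Poisson law for the good lengths in thin sets of primes

For an integer `a ≥ 2`, a real `β > 0` and a prime `p` let `W a β p` be the `p`-rough part (the
product, with multiplicity, of the prime factors larger than `p`) of the largest integer below
`β * a ^ p`, the integer formed by the first `p` digits of `β` in base `a` (for `0 < β ≤ 1`,
non-terminating expansion).  For `a = 10` and `β = 1 / 9 = 0.111...` this is the repunit `R_p` itself,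
for every prime `p ≠ 3`.  Call a prime `p` a good length for `β` in base `a` if `W a β p` is prime.

According to the Poisson model behind the conjecture on repunit primes the number of good lengths in a
set `T` of primes is distributed like a Poisson variable with the expectation
`κ a * ∑ p ∈ T, log p / p`, `κ a = e ^ γ / log a`, and these numbers are independent for disjoint sets.
We prove this as a limit theorem, for a random amplitude `β` (uniform in an arbitrary interval), for
all sequences of families of disjoint finite sets of primes whose union is thin: the weight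
`∑ log p / p` of its part in `(x, 2 x]` tends to zero uniformly in `x`, and for every `h` so does the
weight of the `p` for which `p + h` is in the union, too; for example every `m_n`-th prime in a window,
`m_n → ∞`.  (Without a condition on the pairs `p`,
`p + h` the limit is a compound Poisson law, as with probability `a ^ (-h)` the digits between `p` and
`p + h` are zero.)

Proof.  Let `q` be the largest element of the union.  The sum over the sets of the Laplace weights is
built up one length at a time.  By the starting theorem on primes in almost all short intervals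
(`Pool.Agent.N176.OW.All.fm`) the length `q` is good with probability `κ a * log q / q` independently of
the first `c q` digits, up to an error `O (1 / q)`, and the lengths between `c q` and `q` contribute
little by an upper bound sieve for pairs of lengths: for `q < 2 p` from the starting library
`Pool/Agent/N176/SH`, for `q ≥ 2 p - 1` from a bound for all cells with the same first `p` digits
(`Pool/Agent/Run7/h854/PO`).  This gives the Laplace functional of a Poisson process, and the law
follows by the continuity theorem for generating functions.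
-/

namespace Pool.Agent.Results.MP_adea1b_nt.PoissonLaw

open Filter Topology MeasureTheory

/-- The product, with multiplicity, of the prime factors of `m` that are larger than `p`. -/
def roughPart (p m : ℕ) : ℕ := (m.primeFactorsList.filter (fun r => p < r)).prod

/-- The `p`-rough part of the largest integer below `β * a ^ p`. -/
noncomputable def W (a : ℕ) (β : ℝ) (p : ℕ) : ℕ := roughPart p (⌈β * (a : ℝ) ^ p⌉₊ - 1)

/-- The number of the elements `p` of `T` for which `W a β p` is prime. -/
noncomputable def N (a : ℕ) (β : ℝ) (T : Finset ℕ) : ℕ := (T.filter (fun p => (W a β p).Prime)).card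

/-- The weight of a finite set. -/
noncomputable def V (T : Finset ℕ) : ℝ := ∑ p ∈ T, Real.log p / p

/-- The union of a finite family of finite sets. -/
def U {r : ℕ} (T : Fin r → Finset ℕ) : Finset ℕ := Finset.univ.biUnion T

/-- The constant `e ^ γ / log a`. -/
noncomputable def κ (a : ℕ) : ℝ := Real.exp Real.eulerMascheroniConstant / Real.log a

/-- The families `T n` consist of disjoint finite sets of primes; the elements of the union of `T n`
tend to infinity with `n`, and the union is thin: its weight in the intervals `(x, 2 x]` tends to zero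
uniformly in `x`, and for every `h ≥ 1` the weight of the `p` in the union with `p + h` in the union
tends to zero. -/
structure Thin {r : ℕ} (T : ℕ → Fin r → Finset ℕ) : Prop where
  prime : ∀ n s, ∀ p ∈ T n s, p.Prime
  disjoint : ∀ n s s', s ≠ s' → Disjoint (T n s) (T n s')
  large : ∀ M : ℕ, ∀ᶠ n in atTop, ∀ p ∈ U (T n), M < p
  thin : ∀ δ : ℝ, 0 < δ → ∀ᶠ n in atTop, ∀ x : ℕ, V ((U (T n)).filter (fun p => x < p ∧ p ≤ 2 * x)) ≤ δ
  pairs : ∀ h : ℕ, 1 ≤ h →
    Tendsto (fun n => V ((U (T n)).filter (fun p => p + h ∈ U (T n)))) atTop (𝓝 0)

/-- the special values -/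
lemma special {a : ℕ} (ha : 2 ≤ a) {p : ℕ} (hp : p.Prime) (hpa : ¬ p ∣ a - 1) :
    W a (1 / ((a : ℝ) - 1)) p = ∑ i ∈ Finset.range p, a ^ i := by
  have ha1 : (2 : ℝ) ≤ a := by exact_mod_cast ha
  have h1 := Pool.Agent.N176.SH.spe (a := a) (b := 1) (by rw [abs_one]; exact_mod_cast ha)
    isCoprime_one_right hp (by
      intro h
      apply hpa
      have h2 : ((a - 1 : ℕ) : ℤ) = (a : ℤ) - 1 := by omega
      rw [← h2] at h
      exact_mod_cast h)
  rw [show (1 / ((a : ℝ) - ((1 : ℤ) : ℝ))) = 1 / ((a : ℝ) - 1) by push_cast; rfl,
    Run7.h854.PO.WW_one ha (by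
      have : 0 < (a : ℝ) - 1 := by linarith
      positivity)] at h1
  have h2 : ((W a (1 / ((a : ℝ) - 1)) p : ℕ) : ℤ) * ((a : ℤ) - 1) = (a : ℤ) ^ p - 1 ^ p := h1
  have h3 : (∑ i ∈ Finset.range p, (a : ℤ) ^ i) * ((a : ℤ) - 1) = (a : ℤ) ^ p - 1 := geom_sum_mul _ _
  have h4 : (0 : ℤ) < (a : ℤ) - 1 := by omega
  have h5 : ((W a (1 / ((a : ℝ) - 1)) p : ℕ) : ℤ) = ∑ i ∈ Finset.range p, (a : ℤ) ^ i := by
    apply mul_right_cancel₀ h4.ne'
    rw [h2, h3, one_pow]
  exact_mod_cast h5

/-- The special value; the joint Poisson law for the numbers of good lengths in thin families of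
disjoint sets of primes, in every base. -/
theorem result :
    (∀ p : ℕ, p.Prime → p ≠ 3 → W 10 (1 / 9) p = ∑ i ∈ Finset.range p, 10 ^ i) ∧
    (∀ a : ℕ, 2 ≤ a → ∀ (r : ℕ) (T : ℕ → Fin r → Finset ℕ) (lam : Fin r → ℝ), Thin T →
      (∀ s, Tendsto (fun n => κ a * V (T n s)) atTop (𝓝 (lam s))) →
      ∀ u v : ℝ, 0 ≤ u → u < v → ∀ k : Fin r → ℕ,
      Tendsto (fun n => volume {β : ℝ | u < β ∧ β ≤ v ∧ ∀ s, N a β (T n s) = k s}) atTop
        (𝓝 (ENNReal.ofReal
          ((v - u) * ∏ s, (Real.exp (-lam s) * lam s ^ k s / (k s).factorial))))) := by
  refine ⟨?_, ?_⟩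
  · intro p hp hp3
    have h := special (a := 10) (by norm_num) hp (fun h => hp3 (by
      have h1 : p ∣ 3 ^ 2 := by simpa using h
      exact (Nat.prime_dvd_prime_iff_eq hp Nat.prime_three).1 (hp.dvd_of_dvd_pow h1)))
    have e : (1 / (((10 : ℕ) : ℝ) - 1)) = 1 / 9 := by norm_num
    rw [e] at h
    exact h
  · intro a ha r T lam hT hlam u v hu huv k
    have hT' : Run7.h854.PO.Thin (Pool.Agent.N176.OW.kap a) T lam :=
      { disj := fun n s s' h => hT.disjoint n s s' h
        min := hT.large
        thin := hT.thin
        pair := hT.pairs
        mass := hlam }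
    refine Run7.h854.PO.to_ennreal (u := u) (v := v) (fun n β h => ⟨h.1, h.2.1⟩) ?_
    exact Run7.h854.PO.poisson_zero ha hT' hu huv k

end Pool.Agent.Results.MP_adea1b_nt.PoissonLaw
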