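import Mathlib
import Pool.Agent.Run7.h854.PQ.All

set_option autoImplicit false

/-!
# Repunits and first digits in base `a`: Poissonian statistics of the good lengths, for almost
every amplitude

For an integer `a ≥ 2`, a real `β > 0` and a prime `p` let `W a β p` be the `p`-rough part (the
product, with multiplicity, of the prime factors larger than `p`) of the largest integer below
`β * a ^ p`, the integer formed by the first `p` digits of `β` in base `a` (for `0 < β ≤ 1`,
non-terminating expansion).  For `a = 10` and `β = 1 / 9 = 0.111...` this is the repunit `R_p` itself,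
for every prime `p ≠ 3`.  Call a prime `p` a good length for `β` in base `a` if `W a β p` is prime.

According to the Poisson model behind the conjecture (the events that the different primes `p` are
good lengths are independent and have the probabilities `κ a * log p / p`,
`κ a = e ^ γ / log a`) the good lengths in a set `S` of primes should look like the points of
a Poisson process of intensity one in the time scale in which the prime `p` has the time
`κ a * V S p`, `V S n` being the sum of `log p / p` over the `p ≤ n` in `S`.  The companion file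
`PoissonLaw` of this page proves this for a random amplitude `β`, as a limit theorem for finite sets.
Here we prove it for **almost every individual amplitude** `β`: for every set `S` of primes that is thin
the good lengths of almost every `β` in `S` have Poissonian statistics of all orders.  That is, if `y` is
random, uniform in `(0, X]`, then the numbers of the good lengths in the windows
`(y + α s, y + α' s]` (in the time scale), for any finite number of disjoint windows, are asymptotically
independent Poisson variables with the expectations `α' s - α s`, as `X` tends to infinity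
(for almost every `β`, in all bases at once).  (For example one window and `k = 0` is the law of the gaps.)

The set `S` is thin (`Thin S`) if its weight `V S` is infinite, the weight of its part in `(x, 2 x]`
tends to zero, and for every `h ≥ 1` the `p` in `S` with `p + h` in `S` have a negligible part of the
weight; for example every `m_i`-th prime in `(2 ^ i, 2 ^ (i + 1)]`, where `m_i` tends slowly to
infinity.  (For the set of all primes nothing is known on the correlations of good lengths
`p < q` with `q / p` close to one, only upper bounds.)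

Proof.  The windows of a grid in the time scale, with free time between them, are treated as blocks
of digits.  Given the first digits of `β` (up to the end of the preceding window) the Laplace functional
of a window is that of a Poisson process, up to an error whose mean over all beginnings is controlled by
the starting theorem on primes in almost all short intervals (`Pool.Agent.N176.OW.All.fm`) and by upper
bound sieves valid for **every** beginning (`Run7/h854/PO`, `N176/SH`).  The differences are orthogonal,
the Borel-Cantelli lemma gives the convergence of the means over the grid for almost every `β`, and the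
continuity theorem for generating functions, applied to the empirical measures, gives the frequencies
(`Run7/h854/PQ`).
-/

namespace Pool.Agent.Results.MP_adea1b_nt.PoissonStatistics

open Filter Topology MeasureTheory

/-- The product, with multiplicity, of the prime factors of `m` that are larger than `p`. -/
def roughPart (p m : ℕ) : ℕ := (m.primeFactorsList.filter (fun r => p < r)).prod

/-- The `p`-rough part of the largest integer below `β * a ^ p`. -/
noncomputable def W (a : ℕ) (β : ℝ) (p : ℕ) : ℕ := roughPart p (⌈β * (a : ℝ) ^ p⌉₊ - 1)

/-- The weight `∑ log p / p` of the elements `p ≤ n` of `S`. -/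
noncomputable def V (S : Set ℕ) (n : ℕ) : ℝ :=
  ∑ p ∈ Finset.range (n + 1), S.indicator (fun p : ℕ => Real.log p / (p : ℝ)) p

/-- The constant `e ^ γ / log a`. -/
noncomputable def κ (a : ℕ) : ℝ := Real.exp Real.eulerMascheroniConstant / Real.log a

/-- `S` is a set of primes of infinite weight, the weight of its part in `(n, 2 n]` tends to
zero, and for every `h ≥ 1` the `p` in `S` with `p + h` in `S` have a negligible part of the weight. -/
structure Thin (S : Set ℕ) : Prop where
  prime : ∀ p ∈ S, p.Prime
  infinite : Tendsto (V S) atTop atTop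
  thin : Tendsto (fun n => V S (2 * n) - V S n) atTop (𝓝 0)
  pairs : ∀ h : ℕ, 1 ≤ h → Tendsto (fun n => V {p | p ∈ S ∧ p + h ∈ S} n / V S n) atTop (𝓝 0)

/-- The number of the good lengths `p` of `β` in `S` with the times `κ a * V S p` in `(x, y]`. -/
noncomputable def N (a : ℕ) (S : Set ℕ) (β x y : ℝ) : ℕ :=
  {p : ℕ | p ∈ S ∧ x < κ a * V S p ∧ κ a * V S p ≤ y ∧ (W a β p).Prime}.ncard

/-- the special values -/
lemma special {a : ℕ} (ha : 2 ≤ a) {p : ℕ} (hp : p.Prime) (hpa : ¬ p ∣ a - 1) :
    W a (1 / ((a : ℝ) - 1)) p = ∑ i ∈ Finset.range p, a ^ i := by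
  have ha1 : (2 : ℝ) ≤ a := by exact_mod_cast ha
  have h1 := Pool.Agent.N176.SH.spe (a := a) (b := 1) (by rw [abs_one]; exact_mod_cast ha)
    isCoprime_one_right hp (by
      intro h
      apply hpa
      have h2 : ((a - 1 : ℕ) : ℤ) = (a : ℤ) - 1 := by omega
      rw [← h2] at h
      exact_mod_cast h)
  rw [show (1 / ((a : ℝ) - ((1 : ℤ) : ℝ))) = 1 / ((a : ℝ) - 1) by push_cast; rfl,
    Run7.h854.PO.WW_one ha (by
      have : 0 < (a : ℝ) - 1 := by linarith
      positivity)] at h1
  have h2 : ((W a (1 / ((a : ℝ) - 1)) p : ℕ) : ℤ) * ((a : ℤ) - 1) = (a : ℤ) ^ p - 1 ^ p := h1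
  have h3 : (∑ i ∈ Finset.range p, (a : ℤ) ^ i) * ((a : ℤ) - 1) = (a : ℤ) ^ p - 1 := geom_sum_mul _ _
  have h4 : (0 : ℤ) < (a : ℤ) - 1 := by omega
  have h5 : ((W a (1 / ((a : ℝ) - 1)) p : ℕ) : ℤ) = ∑ i ∈ Finset.range p, (a : ℤ) ^ i := by
    apply mul_right_cancel₀ h4.ne'
    rw [h2, h3, one_pow]
  exact_mod_cast h5

lemma V_eq : V = Run7.h854.PQ.V := by
  funext S n
  rw [Run7.h854.PQ.V_eq]
  rfl

/-- The special value; for almost every `β`, in all bases, the good lengths in a thin set of primes
have Poissonian statistics. -/
theorem result :
    (∀ p : ℕ, p.Prime → p ≠ 3 → W 10 (1 / 9) p = ∑ i ∈ Finset.range p, 10 ^ i) ∧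
    (∀ S : Set ℕ, Thin S → ∀ᵐ β : ℝ, 0 < β → ∀ a : ℕ, 2 ≤ a →
      ∀ (r : ℕ) (α α' : Fin r → ℝ) (k : Fin r → ℕ), (∀ s, 0 ≤ α s ∧ α s ≤ α' s) →
      (∀ s s', s ≠ s' → α' s ≤ α s' ∨ α' s' ≤ α s) →
      Tendsto (fun X : ℝ => (volume {y : ℝ | 0 < y ∧ y ≤ X ∧
        ∀ s, N a S β (y + α s) (y + α' s) = k s}).toReal / X) atTop
        (𝓝 (∏ s, (Real.exp (-(α' s - α s)) * (α' s - α s) ^ k s / (k s).factorial)))) := by
  refine ⟨?_, ?_⟩
  · intro p hp hp3
    have h := special (a := 10) (by norm_num) hp (fun h => hp3 (by
      have h1 : p ∣ 3 ^ 2 := by simpa using h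
      exact (Nat.prime_dvd_prime_iff_eq hp Nat.prime_three).1 (hp.dvd_of_dvd_pow h1)))
    have e : (1 / (((10 : ℕ) : ℝ) - 1)) = 1 / 9 := by norm_num
    rw [e] at h
    exact h
  · intro S hS
    have hS' : Run7.h854.PQ.IsThin S :=
      { inf := V_eq ▸ hS.infinite
        thin := V_eq ▸ hS.thin
        pairs := V_eq ▸ hS.pairs }
    have h1 : ∀ᵐ β : ℝ, ∀ a : ℕ, 2 ≤ a → 0 < β →
        ∀ (r : ℕ) (α α' : Fin r → ℝ) (k : Fin r → ℕ), (∀ s, 0 ≤ α s ∧ α s ≤ α' s) →
        (∀ s s', s ≠ s' → α' s ≤ α s' ∨ α' s' ≤ α s) →
        Tendsto (fun X : ℝ => (volume {y : ℝ | 0 < y ∧ y ≤ X ∧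
          ∀ s, N a S β (y + α s) (y + α' s) = k s}).toReal / X) atTop
          (𝓝 (∏ s, (Real.exp (-(α' s - α s)) * (α' s - α s) ^ k s / (k s).factorial))) := by
      rw [ae_all_iff]
      intro a
      by_cases ha : 2 ≤ a
      · filter_upwards [Run7.h854.PQ.stat_zero ha hS'] with β hβ _ hβ0 r α α' k h0 hd
        have h2 := hβ hβ0 r α α' k h0 hd
        unfold N
        rw [V_eq]
        exact h2
      · exact Eventually.of_forall fun β h => absurd h ha
    filter_upwards [h1] with β hβ hβ0 a ha
    exact hβ a ha hβ0

end Pool.Agent.Results.MP_adea1b_nt.PoissonStatistics
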