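import Pool.Agent.Run7.h370.BaseTwo
import Pool.Agent.Run7.h370.AsymU

/-!
# Sparse multiples of divisors of decimal repunits

Let `p` be a prime, `R_p = (10 ^ p - 1) / 9`, and let `N = ∑_{i ∈ S} u_i 10 ^ i` with `|S| = s` and arbitrary integers
`u_i`.  If `10 ^ p - 1` does not divide `N` then, for every `t ≥ 1` with `t ^ (s - 1) < p`,
`gcd (10 ^ p - 1, N) ≤ (∑ |u_i|) ^ (t ^ (s - 1)) 10 ^ (2 (p / t))`.
So for every `δ > 0` there is `c > 0` such that all the multiples of a divisor `d ≥ 10 ^ (δ p)` of `R_p`, other than the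
multiples of `10 ^ p - 1`, have at least `c log (p / 2)` nonzero decimal digits, and these digits are not contained in fewer
than `c log (p / (ℓ + 1))` intervals of length `ℓ`.  This applies to all the proper divisors `d ≥ √R_p` if `R_p` is
composite.

Proof (`Pool/Agent/Run7/h370`).  Take `q ≤ t ^ (s - 1)` such that all `q (i - i_0)` are close to multiples of `p`.  Modulo
`10 ^ p - 1` the number `10` has a `q`-th root `y`, a power of `10`; so `N / 10 ^ (i_0)` is the value at `y` of a Laurent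
polynomial with small exponents.  The polynomial `X ^ q - 10` is irreducible, so either the Laurent polynomial vanishes
modulo this binomial, and then `10 ^ p - 1` divides `N`, or their resultant is a nonzero integer which is a multiple of the
greatest common divisor.
-/

set_option autoImplicit false

namespace Pool.Agent.Results.MP_adea1b_nt.SparseMultiples

open Run7.h370

/-- **Sparse multiples of divisors of decimal repunits.** -/
theorem result :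
    -- arbitrary coefficients
    (∀ p : ℕ, p.Prime → ∀ (S : Finset ℕ) (u : ℕ → ℤ) (t : ℕ), 0 < t → t ^ (S.card - 1) < p →
      ¬ (10 : ℤ) ^ p - 1 ∣ ∑ i ∈ S, u i * 10 ^ i →
      (Int.gcd (10 ^ p - 1) (∑ i ∈ S, u i * 10 ^ i) : ℤ) ≤
        (∑ i ∈ S, |u i|) ^ (t ^ (S.card - 1)) * 10 ^ (2 * (p / t))) ∧
    -- large divisors have no sparse multiples
    (∀ δ : ℝ, 0 < δ → ∃ c : ℝ, 0 < c ∧ ∀ p : ℕ, p.Prime → ∀ (S : Finset ℕ) (u : ℕ → ℤ) (ℓ : ℕ),
      (∀ i ∈ S, |u i| ≤ 10 ^ ℓ) → ¬ (10 : ℤ) ^ p - 1 ∣ ∑ i ∈ S, u i * 10 ^ i →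
      (10 : ℝ) ^ (δ * p) ≤ (Int.gcd (10 ^ p - 1) (∑ i ∈ S, u i * 10 ^ i) : ℝ) →
      c * Real.log (p / (ℓ + 1)) ≤ S.card) ∧
    -- the large proper divisors
    (∃ c : ℝ, 0 < c ∧ ∀ p : ℕ, p.Prime → ∀ d : ℕ, d ∣ ∑ i ∈ Finset.range p, 10 ^ i →
      d < ∑ i ∈ Finset.range p, 10 ^ i → ∑ i ∈ Finset.range p, 10 ^ i ≤ d ^ 2 →
      ∀ (S : Finset ℕ) (u : ℕ → ℤ) (ℓ : ℕ),
      (∀ i ∈ S, |u i| ≤ 10 ^ ℓ) → (d : ℤ) = ∑ i ∈ S, u i * 10 ^ i →
      c * Real.log (p / (ℓ + 1)) ≤ S.card) := by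
  have hsq : Squarefree 10 := by
    rw [Nat.squarefree_iff_prime_squarefree]
    intro x hx h
    have h1 : x * x ≤ 10 := Nat.le_of_dvd (by norm_num) h
    have h2 : x ≤ 3 := by nlinarith
    have h3 := hx.two_le
    interval_cases x <;> revert h <;> decide
  have hA : ∀ p : ℕ, p.Prime → ∀ (S : Finset ℕ) (u : ℕ → ℤ) (t : ℕ), 0 < t →
      t ^ (S.card - 1) < p → ¬ (10 : ℤ) ^ p - 1 ∣ ∑ i ∈ S, u i * 10 ^ i →
      (Int.gcd (10 ^ p - 1) (∑ i ∈ S, u i * 10 ^ i) : ℤ) ≤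
        (∑ i ∈ S, |u i|) ^ (t ^ (S.card - 1)) * 10 ^ (2 * (p / t)) := by
    intro p hp S u t ht hts hnd
    exact gcdMinus 10 hsq (by norm_num) p hp S u t ht hts hnd
  have hC : ∀ δ : ℝ, 0 < δ → ∃ c : ℝ, 0 < c ∧ ∀ p : ℕ, p.Prime →
      ∀ (S : Finset ℕ) (u : ℕ → ℤ) (ℓ : ℕ),
      (∀ i ∈ S, |u i| ≤ 10 ^ ℓ) → ¬ (10 : ℤ) ^ p - 1 ∣ ∑ i ∈ S, u i * 10 ^ i →
      (10 : ℝ) ^ (δ * p) ≤ (Int.gcd (10 ^ p - 1) (∑ i ∈ S, u i * 10 ^ i) : ℝ) →
      c * Real.log (p / (ℓ + 1)) ≤ S.card := by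
    intro δ hδ
    obtain ⟨c, hc0, hc⟩ := asymGcdU δ hδ
    exact ⟨c, hc0, fun p hp S u ℓ hu hnd hbig =>
      hc 10 (by norm_num) p (10 ^ p - 1) hp.pos S u ℓ hu hnd hbig
        (fun t ht hts => hA p hp S u t ht hts hnd)⟩
  refine ⟨hA, hC, ?_⟩
  obtain ⟨c, hc0, hc⟩ := hC (1 / 4) (by norm_num)
  refine ⟨c, hc0, fun p hp d hd hd1 hd2 S u ℓ hu hdS => ?_⟩
  obtain ⟨R, hR⟩ : ∃ R : ℕ, R = ∑ i ∈ Finset.range p, 10 ^ i := ⟨_, rfl⟩
  rw [← hR] at hd hd1 hd2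
  have hR9 : (R : ℤ) * 9 = 10 ^ p - 1 := by
    rw [hR]
    push_cast
    have := geom_sum_mul (10 : ℤ) p
    norm_num at this
    exact this
  have hR1 : 10 ^ (p - 1) ≤ R := by
    rw [hR]
    exact Finset.single_le_sum (f := fun i => 10 ^ i) (fun i _ => Nat.zero_le _)
      (Finset.mem_range.2 (by have := hp.pos; omega))
  have hd0 : 0 < d := by
    rcases Nat.eq_zero_or_pos d with h | h
    · subst h
      have h1 : R = 0 := by simpa using hd2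
      rw [h1] at hd1
      omega
    · exact h
  have hdM : (d : ℤ) ∣ 10 ^ p - 1 := by
    rw [← hR9]
    exact (Int.natCast_dvd_natCast.2 hd).mul_right _
  refine hc p hp S u ℓ hu (by
    rw [← hdS]
    intro h
    have h2 := Int.le_of_dvd (by exact_mod_cast hd0) h
    rw [← hR9] at h2
    omega) ?_
  rw [← hdS]
  have h1 : (Int.gcd (10 ^ p - 1) (d : ℤ) : ℤ) = d := by
    rw [Int.gcd_comm, Int.gcd_eq_left_iff_dvd (by positivity) |>.2 hdM]
  have h2 : (Int.gcd (10 ^ p - 1) (d : ℤ) : ℝ) = (d : ℝ) := by exact_mod_cast h1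
  rw [h2]
  have h3 : ((10 : ℝ) ^ ((1 / 4 : ℝ) * p)) ^ 2 ≤ (d : ℝ) ^ 2 := by
    rw [← Real.rpow_natCast, ← Real.rpow_mul (by norm_num)]
    have e : (1 / 4 : ℝ) * p * ((2 : ℕ) : ℝ) ≤ ((p - 1 : ℕ) : ℝ) := by
      rw [Nat.cast_sub hp.one_lt.le]
      have : (2 : ℝ) ≤ p := by exact_mod_cast hp.two_le
      push_cast
      linarith
    refine (Real.rpow_le_rpow_of_exponent_le (by norm_num) e).trans ?_
    rw [Real.rpow_natCast]
    exact_mod_cast hR1.trans hd2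
  exact (pow_le_pow_iff_left₀ (by positivity) (by positivity) two_ne_zero).1 h3

end Pool.Agent.Results.MP_adea1b_nt.SparseMultiples
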